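import Pool.Agent.Q32.Ov.Sup

/-! The sup norm of the Moebius exponential sum at every length, and zeros of Dirichlet L-functions. -/

open Filter

namespace Pool.Agent.Results.MP_b6b996_nt.EveryLength

/-- The Moebius exponential sum `F_R(x) = ∑_{n=1}^R μ(n) e^{2πinx}`. -/
noncomputable def F (R : ℕ) (x : ℝ) : ℂ :=
  ∑ n ∈ Finset.Icc 1 R, ((ArithmeticFunction.moebius n : ℤ) : ℂ) *
    Complex.exp (2 * Real.pi * Complex.I * n * x)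

/-- First part: if `L(ρ, χ) = 0` for some Dirichlet character `χ` and some `ρ ≠ 1`, then for every
`0 ≤ θ < Re ρ` we have `sup |F_R| > R^θ` for ALL sufficiently large `R`.
Second part: if for every `ε > 0` the bound `|F_R(x)| ≤ R^(a+ε)`, uniform in `x`, holds for arbitrarily
large `R` (no density of these `R` is assumed), then `L(s, χ) ≠ 0` for `Re s > a` for all Dirichlet
characters `χ` of all moduli. -/
theorem result :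
    (∀ (q : ℕ) [NeZero q] (χ : DirichletCharacter ℂ q) (ρ : ℂ), DirichletCharacter.LFunction χ ρ = 0 →
      ρ ≠ 1 → ∀ θ : ℝ, 0 ≤ θ → θ < ρ.re → ∃ R₀ : ℕ, ∀ R : ℕ, R₀ ≤ R →
        ∃ x ∈ Set.Icc (0 : ℝ) 1, (R : ℝ) ^ θ < ‖F R x‖) ∧
    (∀ a : ℝ, 0 ≤ a → (∀ ε : ℝ, 0 < ε → ∀ R₀ : ℕ, ∃ R : ℕ, R₀ ≤ R ∧
        ∀ x ∈ Set.Icc (0 : ℝ) 1, ‖F R x‖ ≤ (R : ℝ) ^ (a + ε)) →
      ∀ (q : ℕ) [NeZero q] (χ : DirichletCharacter ℂ q) (s : ℂ), a < s.re → (s ≠ 1 ∨ χ ≠ 1) →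
        DirichletCharacter.LFunction χ s ≠ 0) := by
  have hF : ∀ (R : ℕ) (x : ℝ), F R x = Pool.Agent.Q32.Ov.S R x := by
    intro R x
    rw [F, Pool.Agent.Q32.Ov.S]
    refine Finset.sum_congr rfl fun n _ => ?_
    rw [Pool.Agent.Q32.Ov.e]
    congr 2
    push_cast
    ring
  have h1 : ∀ (q : ℕ) [NeZero q] (χ : DirichletCharacter ℂ q) (ρ : ℂ), DirichletCharacter.LFunction χ ρ = 0 →
      ρ ≠ 1 → ∀ θ : ℝ, 0 ≤ θ → θ < ρ.re → ∃ R₀ : ℕ, ∀ R : ℕ, R₀ ≤ R →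
        ∃ x ∈ Set.Icc (0 : ℝ) 1, (R : ℝ) ^ θ < ‖F R x‖ := by
    intro q _ χ ρ h0 hρ θ hθ0 hθ
    obtain ⟨R₀, hR₀⟩ := eventually_atTop.1 (Pool.Agent.Q32.Ov.sup_all χ h0 hρ hθ0 hθ)
    refine ⟨R₀, fun R hR => ?_⟩
    obtain ⟨x, hx, h2⟩ := hR₀ R hR
    exact ⟨x, hx, by rw [hF]; exact h2⟩
  refine ⟨h1, ?_⟩
  intro a ha h q _ χ s hs hsχ h0
  have hs1 : s ≠ 1 := by
    rintro rfl
    rcases hsχ with h2 | h2
    · exact h2 rfl
    · exact DirichletCharacter.LFunction_apply_one_ne_zero h2 h0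
  obtain ⟨R₀, hR₀⟩ := h1 q χ s h0 hs1 (a + (s.re - a) / 2) (by linarith) (by linarith)
  obtain ⟨R, hR, h3⟩ := h ((s.re - a) / 2) (by linarith) R₀
  obtain ⟨x, hx, h4⟩ := hR₀ R hR
  exact absurd (h3 x hx) (not_le.2 h4)

end Pool.Agent.Results.MP_b6b996_nt.EveryLength
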