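import Pool.Agent.Q36.DM.Fam

/-!
# MP_b6b996_nt: uniform bounds over generic members of families of sets of small box dimension

For `F_R(x) = ∑_{n ≤ R} μ(n) e(nx)` and a set `E` of upper box dimension at most `d`, carried into the line
by a family of maps `G(·, y)`, the set of the parameters `y` for which `sup_{x ∈ E} |F_R(G(x, y))|` is not
`O(R^c)` has Hausdorff dimension at most `2 - 2c + d`; for almost every `y` the supremum is
`O(R^((1+d)/2+ε))`. In particular this holds for the translates `y + E` of a set `E` of real numbers.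
-/

set_option autoImplicit false

open Finset

namespace Pool.Agent.Results.MP_b6b996_nt.GenericFamilies

/-- The Möbius exponential sum `F_R(y)`. -/
noncomputable def F (R : ℕ) (y : ℝ) : ℂ :=
  ∑ n ∈ Icc 1 R, ((ArithmeticFunction.moebius n : ℤ) : ℂ) *
    Complex.exp (2 * (Real.pi : ℂ) * Complex.I * ((n : ℂ) * (y : ℂ)))

/-- The upper box dimension of `E` is at most `d`: for every `ε > 0` the set `E` is covered by at most
`C δ^(-(d+ε))` closed balls of radius `δ`, for every `0 < δ ≤ 1`. -/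
def BoxDimLE {X : Type} [PseudoMetricSpace X] (E : Set X) (d : ℝ) : Prop :=
  ∀ ε : ℝ, 0 < ε → ∃ C : ℝ, ∀ δ : ℝ, 0 < δ → δ ≤ 1 →
    ∃ S : Finset X, (S.card : ℝ) ≤ C * δ ^ (-(d + ε)) ∧ ∀ x ∈ E, ∃ s ∈ S, dist x s ≤ δ

/-- `G(x, y)`, for `x ∈ X` and `y ∈ [p, q]`, is Lipschitz in `x` and bi-Lipschitz in `y`, with constants
`m > 0` and `L ≥ 0`. -/
structure Family {X : Type} [PseudoMetricSpace X] (G : X → ℝ → ℝ) (p q m L : ℝ) : Prop where
  pos : 0 < m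
  nonneg : 0 ≤ L
  lip : ∀ x x' : X, ∀ y ∈ Set.Icc p q, |G x y - G x' y| ≤ L * dist x x'
  upper : ∀ x : X, ∀ y ∈ Set.Icc p q, ∀ y' ∈ Set.Icc p q, |G x y - G x y'| ≤ L * |y - y'|
  lower : ∀ x : X, ∀ y ∈ Set.Icc p q, ∀ y' ∈ Set.Icc p q, m * |y - y'| ≤ |G x y - G x y'|

lemma mu_le (n : ℕ) : ‖((ArithmeticFunction.moebius n : ℤ) : ℂ)‖ ≤ 1 := by
  rw [Complex.norm_intCast]
  exact_mod_cast ArithmeticFunction.abs_moebius_le_one

lemma key (R : ℕ) (y : ℝ) :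
    F R y = Pool.Agent.Q36.DM.F (fun n => ((ArithmeticFunction.moebius n : ℤ) : ℂ)) R y := by
  unfold F Pool.Agent.Q36.DM.F Pool.Agent.W928.MW.e
  refine Finset.sum_congr rfl (fun n _ => ?_)
  push_cast
  rfl

lemma fam {X : Type} [PseudoMetricSpace X] {G : X → ℝ → ℝ} {p q m L : ℝ} (h : Family G p q m L) :
    Pool.Agent.Q36.DM.Fam G p q m L := ⟨h.pos, h.nonneg, h.lip, h.upper, h.lower⟩

lemma box {X : Type} [PseudoMetricSpace X] {E : Set X} {d : ℝ} (h : BoxDimLE E d) :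
    Pool.Agent.Q36.DM.BoxLE E d := h

/-- translations -/
lemma family_add (p q : ℝ) : Family (fun x y : ℝ => x + y) p q 1 1 := by
  refine ⟨one_pos, zero_le_one, fun x x' y _ => ?_, fun x y _ y' _ => ?_, fun x y _ y' _ => ?_⟩
  · rw [Real.dist_eq, one_mul]
    exact le_of_eq (congrArg _ (by ring))
  · rw [one_mul]
    exact le_of_eq (congrArg _ (by ring))
  · rw [one_mul]
    exact le_of_eq (congrArg _ (by ring))

/-- the powers of `1/2` have box dimension `0` -/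
lemma box_geom : BoxDimLE {x : ℝ | ∃ k : ℕ, x = (2 : ℝ) ^ (-(k : ℝ))} 0 := by
  intro ε hε
  refine ⟨2 + 1 / (ε * Real.log 2), fun δ hδ0 hδ1 => ?_⟩
  have hl2 : 0 < Real.log 2 := Real.log_pos (by norm_num)
  set K : ℕ := ⌈Real.log (1 / δ) / Real.log 2⌉₊ with hK
  refine ⟨(range (K + 1)).image (fun k : ℕ => (2 : ℝ) ^ (-(k : ℝ))), ?_, ?_⟩
  · refine (Nat.cast_le.2 Finset.card_image_le).trans ?_
    rw [card_range]
    have h1 : (1 : ℝ) ≤ δ ^ (-(0 + ε)) := by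
      rw [zero_add]
      exact Real.one_le_rpow_of_pos_of_le_one_of_nonpos hδ0 hδ1 (by linarith)
    have h2 : Real.log (1 / δ) ≤ δ ^ (-(0 + ε)) / ε := by
      have h3 := Real.log_le_rpow_div (x := 1 / δ) (by positivity) hε
      refine h3.trans (le_of_eq ?_)
      rw [zero_add, one_div, Real.inv_rpow hδ0.le, Real.rpow_neg hδ0.le]
    have h4 : (K : ℝ) < Real.log (1 / δ) / Real.log 2 + 1 := by
      apply Nat.ceil_lt_add_one
      apply div_nonneg _ hl2.le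
      apply Real.log_nonneg
      rw [le_div_iff₀ hδ0]
      linarith
    have h5 : Real.log (1 / δ) / Real.log 2 ≤ 1 / (ε * Real.log 2) * δ ^ (-(0 + ε)) := by
      rw [div_le_iff₀ hl2]
      refine h2.trans (le_of_eq ?_)
      field_simp
    push_cast
    nlinarith
  · rintro x ⟨k, rfl⟩
    by_cases hk : k < K + 1
    · exact ⟨_, mem_image_of_mem _ (mem_range.2 hk), by rw [dist_self]; exact hδ0.le⟩
    · refine ⟨(2 : ℝ) ^ (-(K : ℝ)), mem_image_of_mem _ (mem_range.2 (Nat.lt_succ_self K)), ?_⟩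
      have hKδ : (2 : ℝ) ^ (-(K : ℝ)) ≤ δ := by
        have h1 : Real.log (1 / δ) / Real.log 2 ≤ K := Nat.le_ceil _
        rw [div_le_iff₀ hl2] at h1
        have h2 : Real.log ((2 : ℝ) ^ (-(K : ℝ))) ≤ Real.log δ := by
          rw [Real.log_rpow (by norm_num)]
          rw [one_div, Real.log_inv] at h1
          linarith
        exact (Real.log_le_log_iff (by positivity) hδ0).1 h2
      have h3 : (2 : ℝ) ^ (-(k : ℝ)) ≤ (2 : ℝ) ^ (-(K : ℝ)) := by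
        apply Real.rpow_le_rpow_of_exponent_le (by norm_num)
        have : (K : ℝ) ≤ k := by
          have : K ≤ k := by omega
          exact_mod_cast this
        linarith
      have h4 : (0 : ℝ) < (2 : ℝ) ^ (-(k : ℝ)) := by positivity
      rw [Real.dist_eq, abs_le]
      constructor <;> linarith

/-- Let `E` have upper box dimension at most `d ≥ 0` and let `G` be a family as in `Family` on `[p, q]`.
(1) For `0 ≤ c ≤ 1` the set of the `y ∈ [p, q]` for which `sup_{x ∈ E} |F_R(G(x, y))|` is not `O(R^c)` has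
Hausdorff dimension at most `2 - 2c + d`.
(2) If `d ≤ 1`, for almost every `y ∈ [p, q]`, `sup_{x ∈ E} |F_R(G(x, y))| = O(R^((1+d)/2+ε))` for every `ε > 0`.
(3) Translates: for `E ⊆ ℝ` and almost every real `y`, `sup_{x ∈ E} |F_R(x + y)| = O(R^((1+d)/2+ε))`.
(4) For almost every real `y`, `sup_{k ≥ 0} |F_R(y + 2^(-k))| = O(R^(1/2+ε))` for every `ε > 0`. -/
theorem result :
    (∀ (X : Type) [PseudoMetricSpace X] (E : Set X) (d : ℝ), 0 ≤ d → BoxDimLE E d →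
      ∀ (G : X → ℝ → ℝ) (p q m L : ℝ), Family G p q m L →
        (∀ c : ℝ, 0 ≤ c → c ≤ 1 →
          dimH {y : ℝ | y ∈ Set.Icc p q ∧
            ¬ ∃ C : ℝ, ∀ R : ℕ, 1 ≤ R → ∀ x ∈ E, ‖F R (G x y)‖ ≤ C * (R : ℝ) ^ c} ≤
            ENNReal.ofReal (2 - 2 * c + d)) ∧
        (d ≤ 1 → ∀ᵐ y : ℝ, y ∈ Set.Icc p q → ∀ ε : ℝ, 0 < ε →
          ∃ C : ℝ, ∀ R : ℕ, 1 ≤ R → ∀ x ∈ E, ‖F R (G x y)‖ ≤ C * (R : ℝ) ^ ((1 + d) / 2 + ε))) ∧
    (∀ (E : Set ℝ) (d : ℝ), 0 ≤ d → d ≤ 1 → BoxDimLE E d → ∀ᵐ y : ℝ, ∀ ε : ℝ, 0 < ε →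
      ∃ C : ℝ, ∀ R : ℕ, 1 ≤ R → ∀ x ∈ E, ‖F R (x + y)‖ ≤ C * (R : ℝ) ^ ((1 + d) / 2 + ε)) ∧
    (∀ᵐ y : ℝ, ∀ ε : ℝ, 0 < ε → ∃ C : ℝ, ∀ R : ℕ, 1 ≤ R → ∀ k : ℕ,
      ‖F R (y + (2 : ℝ) ^ (-(k : ℝ)))‖ ≤ C * (R : ℝ) ^ (1 / 2 + ε)) := by
  have h3 : ∀ (E : Set ℝ) (d : ℝ), 0 ≤ d → d ≤ 1 → BoxDimLE E d → ∀ᵐ y : ℝ, ∀ ε : ℝ, 0 < ε →
      ∃ C : ℝ, ∀ R : ℕ, 1 ≤ R → ∀ x ∈ E, ‖F R (x + y)‖ ≤ C * (R : ℝ) ^ ((1 + d) / 2 + ε) := by
    intro E d hd hd1 hE
    have h : ∀ N : ℕ, ∀ᵐ y : ℝ, y ∈ Set.Icc (-(N : ℝ)) N → ∀ ε : ℝ, 0 < ε → ∃ C : ℝ, ∀ R : ℕ, 1 ≤ R →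
        ∀ x ∈ E, ‖F R (x + y)‖ ≤ C * (R : ℝ) ^ ((1 + d) / 2 + ε) := by
      intro N
      have := Pool.Agent.Q36.DM.fam_ae hd hd1 (box hE) (fam (family_add (-(N : ℝ)) N))
        (fun n => ((ArithmeticFunction.moebius n : ℤ) : ℂ)) mu_le
      simpa only [key] using this
    rw [← MeasureTheory.ae_all_iff] at h
    filter_upwards [h] with y hy
    obtain ⟨N, hN⟩ := exists_nat_ge |y|
    exact hy N ⟨(abs_le.1 hN).1, (abs_le.1 hN).2⟩
  refine ⟨?_, h3, ?_⟩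
  · intro X _ E d hd hE G p q m L hG
    refine ⟨fun c hc0 hc => ?_, fun hd1 => ?_⟩
    · have := Pool.Agent.Q36.DM.fam_dim hd (box hE) (fam hG)
        (fun n => ((ArithmeticFunction.moebius n : ℤ) : ℂ)) mu_le c hc0 hc
      simpa only [Pool.Agent.Q36.DM.Ex, key] using this
    · have := Pool.Agent.Q36.DM.fam_ae hd hd1 (box hE) (fam hG)
        (fun n => ((ArithmeticFunction.moebius n : ℤ) : ℂ)) mu_le
      simpa only [key] using this
  · filter_upwards [h3 _ 0 le_rfl zero_le_one box_geom] with y hy ε hε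
    obtain ⟨C, hC⟩ := hy ε hε
    refine ⟨C, fun R hR k => ?_⟩
    have := hC R hR _ ⟨k, rfl⟩
    rw [add_zero, add_comm] at this
    exact this

end Pool.Agent.Results.MP_b6b996_nt.GenericFamilies
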