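import Pool.Agent.Q36.DM.UnifDim

/-!
# MP_b6b996_nt: the square-root bound uniformly over translations, dilations and weights

For almost every `x` the conjectured bound holds for the Möbius sums at all the points of a countable family
`t_j x + b_j`, with arbitrary bounded weights `g_j`, with only the loss `j^(1/2+ε)`; for example
`|∑_{n ≤ R} μ(n) χ(n) e(n(kx + a/q))| ≤ C (k q² m² R)^(1/2+ε)` for all `k`, `q`, `a`, `m`, all characters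
`χ` modulo `m` and all `R`. The exceptional set of the corresponding bounds `(h_j R)^c` for translations has
Hausdorff dimension at most `2 - 2c`.
-/

set_option autoImplicit false

open Finset

namespace Pool.Agent.Results.MP_b6b996_nt.PolynomialHeights

/-- The Möbius exponential sum with a weight `g`, at the point `y`. -/
noncomputable def F (g : ℕ → ℂ) (R : ℕ) (y : ℝ) : ℂ :=
  ∑ n ∈ Icc 1 R, ((ArithmeticFunction.moebius n : ℤ) : ℂ) * g n *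
    Complex.exp (2 * (Real.pi : ℂ) * Complex.I * ((n : ℂ) * (y : ℂ)))

lemma mu_le (n : ℕ) : ‖((ArithmeticFunction.moebius n : ℤ) : ℂ)‖ ≤ 1 := by
  rw [Complex.norm_intCast]
  exact_mod_cast ArithmeticFunction.abs_moebius_le_one

lemma key (g : ℕ → ℂ) (R : ℕ) (y : ℝ) :
    F g R y = Pool.Agent.Q36.DM.F (fun n => ((ArithmeticFunction.moebius n : ℤ) : ℂ) * g n) R y := by
  unfold F Pool.Agent.Q36.DM.F Pool.Agent.W928.MW.e
  refine Finset.sum_congr rfl (fun n _ => ?_)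
  push_cast
  rfl

lemma wt_le (g : ℕ → ℂ) (hg : ∀ n, ‖g n‖ ≤ 1) (n : ℕ) :
    ‖((ArithmeticFunction.moebius n : ℤ) : ℂ) * g n‖ ≤ 1 := by
  rw [norm_mul]
  exact mul_le_one₀ (mu_le n) (norm_nonneg _) (hg n)

/-- the index set for the explicit family -/
abbrev J₁ : Type := (Σ q : ℕ, Fin (q + 1)) × (Σ m : ℕ, DirichletCharacter ℂ (m + 1))

/-- its heights -/
noncomputable def h₁ (z : J₁) : ℝ := ((z.1.1 : ℝ) + 1) ^ 2 * ((z.2.1 : ℝ) + 1) ^ 2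

lemma card_char (m : ℕ) : Nat.card (DirichletCharacter ℂ (m + 1)) ≤ m + 1 := by
  rw [DirichletCharacter.card_eq_totient_of_hasEnoughRootsOfUnity]
  exact Nat.totient_le _

lemma h₁_one (z : J₁) : 1 ≤ h₁ z := by
  unfold h₁
  have h1 : (1 : ℝ) ≤ (z.1.1 : ℝ) + 1 := by linarith [(Nat.cast_nonneg z.1.1 : (0 : ℝ) ≤ _)]
  have h2 : (1 : ℝ) ≤ (z.2.1 : ℝ) + 1 := by linarith [(Nat.cast_nonneg z.2.1 : (0 : ℝ) ≤ _)]
  exact one_le_mul_of_one_le_of_one_le (one_le_pow₀ h1) (one_le_pow₀ h2)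

lemma h₁_sum (s : ℝ) (hs : 1 < s) : Summable fun z : J₁ => (h₁ z) ^ (-s) := by
  have s1 := Pool.Agent.Q36.DM.sum_fib (ι := fun q : ℕ => Fin (q + 1)) (fun m => by simp) s hs
  have s2 := Pool.Agent.Q36.DM.sum_fib (ι := fun m : ℕ => DirichletCharacter ℂ (m + 1)) card_char s hs
  refine (s1.mul_of_nonneg s2 (fun _ => by positivity) (fun _ => by positivity)).congr (fun z => ?_)
  unfold h₁
  rw [Real.mul_rpow (by positivity) (by positivity)]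

instance : Countable J₁ := inferInstance

/-- reduction of `a / q` to a member of the family -/
lemma red (q m : ℕ) (hq : 1 ≤ q) (hm : 1 ≤ m) (a : ℤ) (χ : DirichletCharacter ℂ m) (g : ℝ → ℝ) :
    ∃ z : J₁, h₁ z = (q : ℝ) ^ 2 * (m : ℝ) ^ 2 ∧ ∀ (R : ℕ) (y : ℝ),
      F (fun n => χ (n : ZMod m)) R (g y + (a : ℝ) / q) =
        F (fun n => z.2.2 (n : ZMod (z.2.1 + 1))) R (g y + ((z.1.2 : ℕ) : ℝ) / ((z.1.1 : ℝ) + 1)) := by
  obtain ⟨q', rfl⟩ : ∃ q', q = q' + 1 := ⟨q - 1, by omega⟩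
  obtain ⟨m', rfl⟩ : ∃ m', m = m' + 1 := ⟨m - 1, by omega⟩
  have hlt : (a % ((q' + 1 : ℕ) : ℤ)).toNat < q' + 1 := by
    have h1 := Int.emod_nonneg a (show ((q' + 1 : ℕ) : ℤ) ≠ 0 by omega)
    have h2 := Int.emod_lt_of_pos a (show (0 : ℤ) < ((q' + 1 : ℕ) : ℤ) by omega)
    omega
  refine ⟨(⟨q', ⟨(a % ((q' + 1 : ℕ) : ℤ)).toNat, hlt⟩⟩, ⟨m', χ⟩), ?_, fun R y => ?_⟩
  · unfold h₁
    push_cast
    rfl
  · have h1 := Int.emod_nonneg a (show ((q' + 1 : ℕ) : ℤ) ≠ 0 by omega)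
    have h3 : (((a % ((q' + 1 : ℕ) : ℤ)).toNat : ℕ) : ℝ) = ((a % ((q' + 1 : ℕ) : ℤ) : ℤ) : ℝ) := by
      have : (((a % ((q' + 1 : ℕ) : ℤ)).toNat : ℕ) : ℤ) = a % ((q' + 1 : ℕ) : ℤ) := Int.toNat_of_nonneg h1
      exact_mod_cast this
    have h4 : (a : ℝ) = ((q' + 1 : ℕ) : ℝ) * ((a / ((q' + 1 : ℕ) : ℤ) : ℤ) : ℝ) +
        ((a % ((q' + 1 : ℕ) : ℤ) : ℤ) : ℝ) := by
      have := Int.mul_ediv_add_emod a ((q' + 1 : ℕ) : ℤ)
      exact_mod_cast this.symm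
    have h5 : g y + (a : ℝ) / ((q' + 1 : ℕ) : ℝ) = (g y + (((a % ((q' + 1 : ℕ) : ℤ)).toNat : ℕ) : ℝ) / ((q' : ℝ) + 1)) +
        ((a / ((q' + 1 : ℕ) : ℤ) : ℤ) : ℝ) := by
      have hq0 : ((q' : ℝ) + 1) ≠ 0 := by positivity
      rw [h3]
      conv_lhs => rw [h4]
      push_cast
      field_simp
      ring
    rw [h5, key, key, Pool.Agent.Q36.DM.F_add_int]

/-- (1) For arbitrary real sequences `t_j`, `b_j` with `|t_j| ≥ 1` and arbitrary weights `|g_j(n)| ≤ 1`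
(`j ≥ 1`), for almost every real `x` and every `ε > 0`, for all `j, R ≥ 1`,
`|∑_{n ≤ R} μ(n) g_j(n) e(n (t_j x + b_j))| ≤ C (j R)^(1/2+ε)`.
(2) For `t_j = 1` and `1/2 < c ≤ 1` the set of the real `x` for which there is no `C` with
`|∑_{n ≤ R} μ(n) g_j(n) e(n (x + b_j))| ≤ C (j R)^c` for all `j, R ≥ 1` has Hausdorff dimension at most
`2 - 2c`.
(3) For almost every real `x` and every `ε > 0`, for all `k, q, m, R ≥ 1`, all integers `a` and all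
Dirichlet characters `χ` modulo `m`, `|∑_{n ≤ R} μ(n) χ(n) e(n (kx + a/q))| ≤ C (k q² m² R)^(1/2+ε)`.
(4) For `1/2 < c ≤ 1` the set of the real `x` for which there is no `C` with
`|∑_{n ≤ R} μ(n) χ(n) e(n (x + a/q))| ≤ C (q² m² R)^c` for all `q, m, R, a, χ` has Hausdorff dimension at
most `2 - 2c`.
(5) For almost every real `x`, every `κ ≥ 0` and `ε > 0`, `|F_R(y)| ≤ C R^(1/2+κ+ε)` for all `R ≥ 1` and
all the points `y = x + a/q` with `1 ≤ q ≤ R^κ`. -/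
theorem result :
    (∀ (t b : ℕ → ℝ) (g : ℕ → ℕ → ℂ), (∀ j, 1 ≤ j → 1 ≤ |t j|) → (∀ j n, ‖g j n‖ ≤ 1) →
      ∀ᵐ x : ℝ, ∀ ε : ℝ, 0 < ε → ∃ C : ℝ, ∀ j R : ℕ, 1 ≤ j → 1 ≤ R →
        ‖F (g j) R (t j * x + b j)‖ ≤ C * ((j : ℝ) * R) ^ (1 / 2 + ε)) ∧
    (∀ (b : ℕ → ℝ) (g : ℕ → ℕ → ℂ), (∀ j n, ‖g j n‖ ≤ 1) → ∀ c : ℝ, 1 / 2 < c → c ≤ 1 →
      dimH {x : ℝ | ¬ ∃ C : ℝ, ∀ j R : ℕ, 1 ≤ j → 1 ≤ R → ‖F (g j) R (x + b j)‖ ≤ C * ((j : ℝ) * R) ^ c} ≤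
        ENNReal.ofReal (2 - 2 * c)) ∧
    (∀ᵐ x : ℝ, ∀ ε : ℝ, 0 < ε → ∃ C : ℝ, ∀ k q m : ℕ, 1 ≤ k → 1 ≤ q → 1 ≤ m → ∀ (a : ℤ)
      (χ : DirichletCharacter ℂ m) (R : ℕ), 1 ≤ R →
        ‖F (fun n => χ (n : ZMod m)) R ((k : ℝ) * x + (a : ℝ) / q)‖ ≤
          C * ((k : ℝ) * (q : ℝ) ^ 2 * (m : ℝ) ^ 2 * R) ^ (1 / 2 + ε)) ∧
    (∀ c : ℝ, 1 / 2 < c → c ≤ 1 →
      dimH {x : ℝ | ¬ ∃ C : ℝ, ∀ q m : ℕ, 1 ≤ q → 1 ≤ m → ∀ (a : ℤ)
        (χ : DirichletCharacter ℂ m) (R : ℕ), 1 ≤ R →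
          ‖F (fun n => χ (n : ZMod m)) R (x + (a : ℝ) / q)‖ ≤ C * ((q : ℝ) ^ 2 * (m : ℝ) ^ 2 * R) ^ c} ≤
        ENNReal.ofReal (2 - 2 * c)) ∧
    (∀ᵐ x : ℝ, ∀ κ ε : ℝ, 0 ≤ κ → 0 < ε → ∃ C : ℝ, ∀ R q : ℕ, 1 ≤ R → 1 ≤ q → (q : ℝ) ≤ (R : ℝ) ^ κ →
      ∀ a : ℤ, ‖F (fun _ => 1) R (x + (a : ℝ) / q)‖ ≤ C * (R : ℝ) ^ (1 / 2 + κ + ε)) := by
  have hn1 : ∀ j : ℕ, (1 : ℝ) ≤ (j : ℝ) + 1 := fun j => by linarith [(Nat.cast_nonneg j : (0 : ℝ) ≤ _)]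
  have hns : ∀ s : ℝ, 1 < s → Summable fun j : ℕ => ((j : ℝ) + 1) ^ (-s) := by
    intro s hs
    have h1 := (Real.summable_nat_rpow (p := -s)).2 (by linarith)
    have h2 := (summable_nat_add_iff 1).2 h1
    refine h2.congr (fun j => ?_)
    push_cast
    rfl
  have h3 : ∀ᵐ x : ℝ, ∀ ε : ℝ, 0 < ε → ∃ C : ℝ, ∀ k q m : ℕ, 1 ≤ k → 1 ≤ q → 1 ≤ m → ∀ (a : ℤ)
      (χ : DirichletCharacter ℂ m) (R : ℕ), 1 ≤ R →
        ‖F (fun n => χ (n : ZMod m)) R ((k : ℝ) * x + (a : ℝ) / q)‖ ≤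
          C * ((k : ℝ) * (q : ℝ) ^ 2 * (m : ℝ) ^ 2 * R) ^ (1 / 2 + ε) := by
    have h := Pool.Agent.Q36.DM.unif_affine (J := ℕ × J₁)
      (fun z n => ((ArithmeticFunction.moebius n : ℤ) : ℂ) * z.2.2.2 (n : ZMod (z.2.2.1 + 1)))
      (fun z n => wt_le _ (fun n => DirichletCharacter.norm_le_one _ _) n) (fun z => (z.1 : ℝ) + 1)
      (fun z => ((z.2.1.2 : ℕ) : ℝ) / ((z.2.1.1 : ℝ) + 1))
      (fun z => by rw [abs_of_nonneg (by positivity)]; exact hn1 _)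
      (fun z => ((z.1 : ℝ) + 1) * h₁ z.2)
      (fun z => one_le_mul_of_one_le_of_one_le (hn1 _) (h₁_one _))
      (fun s hs => by
        refine ((hns s hs).mul_of_nonneg (h₁_sum s hs) (fun _ => by positivity)
          (fun z => by have := h₁_one z; positivity)).congr (fun z => ?_)
        rw [Real.mul_rpow (by positivity) (by linarith [h₁_one z.2])])
    filter_upwards [h] with x hx ε hε
    obtain ⟨C, hC⟩ := hx ε hε
    refine ⟨C, fun k q m hk hq hm a χ R hR => ?_⟩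
    obtain ⟨k', rfl⟩ : ∃ k', k = k' + 1 := ⟨k - 1, by omega⟩
    obtain ⟨z, hz, hzF⟩ := red q m hq hm a χ (fun y => ((k' + 1 : ℕ) : ℝ) * y)
    have h2 := hC (k', z) R hR
    rw [hzF, key]
    simp only [hz] at h2
    push_cast at h2 ⊢
    convert h2 using 3
    ring
  refine ⟨?_, ?_, h3, ?_, ?_⟩
  · intro t b g ht hg
    have h := Pool.Agent.Q36.DM.unif_affine (J := ℕ)
      (fun j n => ((ArithmeticFunction.moebius n : ℤ) : ℂ) * g (j + 1) n)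
      (fun j n => wt_le _ (hg (j + 1)) n) (fun j => t (j + 1)) (fun j => b (j + 1))
      (fun j => ht (j + 1) (by omega)) (fun j => (j : ℝ) + 1) hn1 hns
    filter_upwards [h] with x hx ε hε
    obtain ⟨C, hC⟩ := hx ε hε
    refine ⟨C, fun j R hj hR => ?_⟩
    obtain ⟨j', rfl⟩ : ∃ j', j = j' + 1 := ⟨j - 1, by omega⟩
    rw [key]
    push_cast
    exact hC j' R hR
  · intro b g hg c hc0 hc
    refine le_trans (dimH_mono ?_) (Pool.Agent.Q36.DM.unif_dim (J := ℕ)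
      (fun j n => ((ArithmeticFunction.moebius n : ℤ) : ℂ) * g (j + 1) n)
      (fun j n => wt_le _ (hg (j + 1)) n) (fun j => b (j + 1)) (fun j => (j : ℝ) + 1) hn1 c hc0 hc
      (hns (2 * c) (by linarith)))
    intro x hx hcon
    apply hx
    obtain ⟨C, hC⟩ := hcon
    refine ⟨C, fun j R hj hR => ?_⟩
    obtain ⟨j', rfl⟩ : ∃ j', j = j' + 1 := ⟨j - 1, by omega⟩
    rw [key]
    push_cast
    exact hC j' R hR
  · intro c hc0 hc
    refine le_trans (dimH_mono ?_) (Pool.Agent.Q36.DM.unif_dim (J := J₁)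
      (fun z n => ((ArithmeticFunction.moebius n : ℤ) : ℂ) * z.2.2 (n : ZMod (z.2.1 + 1)))
      (fun z n => wt_le _ (fun n => DirichletCharacter.norm_le_one _ _) n)
      (fun z => ((z.1.2 : ℕ) : ℝ) / ((z.1.1 : ℝ) + 1)) h₁ h₁_one c hc0 hc
      (h₁_sum (2 * c) (by linarith)))
    intro x hx hcon
    apply hx
    obtain ⟨C, hC⟩ := hcon
    refine ⟨C, fun q m hq hm a χ R hR => ?_⟩
    obtain ⟨z, hz, hzF⟩ := red q m hq hm a χ (fun y => y)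
    have h2 := hC z R hR
    rw [hzF, key, ← hz]
    exact h2
  · filter_upwards [h3] with x hx κ ε hκ hε
    obtain ⟨C, hC⟩ := hx (ε / (2 * κ + 1)) (by positivity)
    have hC0 : 0 ≤ C := by
      have := (norm_nonneg _).trans (hC 1 1 1 le_rfl le_rfl le_rfl 0 1 1 le_rfl)
      simpa using this
    refine ⟨C, fun R q hR hq hqR a => ?_⟩
    have h2 := hC 1 q 1 le_rfl hq le_rfl a 1 R hR
    have e1 : (fun n : ℕ => (1 : DirichletCharacter ℂ 1) (n : ZMod 1)) = fun _ => 1 := by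
      funext n
      have : IsUnit (n : ZMod 1) := isUnit_of_subsingleton _
      exact MulChar.one_apply this
    rw [e1] at h2
    push_cast at h2
    rw [one_mul] at h2
    refine h2.trans (mul_le_mul_of_nonneg_left ?_ hC0)
    have hR0 : (0 : ℝ) < R := by exact_mod_cast hR
    have h4 : 1 * (q : ℝ) ^ 2 * 1 ^ 2 * R ≤ (R : ℝ) ^ (2 * κ + 1) := by
      rw [Real.rpow_add hR0, Real.rpow_one, mul_comm 2 κ, Real.rpow_mul hR0.le, one_mul, one_pow, mul_one]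
      apply mul_le_mul_of_nonneg_right _ hR0.le
      have h5 : (q : ℝ) ^ 2 ≤ ((R : ℝ) ^ κ) ^ 2 := pow_le_pow_left₀ (by positivity) hqR 2
      exact_mod_cast h5
    refine (Real.rpow_le_rpow (by positivity) h4 (by positivity)).trans (le_of_eq ?_)
    rw [← Real.rpow_mul hR0.le]
    congr 1
    field_simp
    ring

end Pool.Agent.Results.MP_b6b996_nt.PolynomialHeights
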